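import Pool.Agent.P.MP_e4ac67_pr.G.Lv
import Pool.Agent.P.MP_e4ac67_pr.S.Cls

/-! The exit sums `sG`, `sGS` and the bound `HH`: reduction to tables. -/

open scoped ENNReal

namespace Pool.Agent.P.MP_e4ac67_pr.Gr
namespace Ex

instance nqU : NQ Unit := ⟨[()], fun _ => by simp, by simp⟩

def unp1 (N j : ℕ) : ℕ := (N >>> (48 * j)) % 281474976710656

def unp (N : ℕ) (_ : Unit) (sl _j : ℕ) : ℕ :=
  Nat.rec 0 (fun n ih => ih + unp1 N (n * 19 + sl) <<< (48 * n)) 11

/-- weights `a` for a step, `b` for a step with an ear -/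
def nw (a b a1 a2f a2t a3 rho : ℕ) : NW Unit :=
  ⟨fun _ _ e => cond e b a, fun _ _ => a, fun _ _ e => cond e b a, fun _ _ _ => a1,
    fun t _ _ => cond t a2t a2f, fun _ _ => a3, rho⟩

structure Wok (w : NW Unit) (p q : ℝ≥0∞) : Prop where
  q1 : q ≤ 1
  wl : ∀ e, p * cond e q 1 ≤ vv (w.wl () () e)
  wu : p ≤ vv (w.wu () ())
  wd : ∀ e, p * cond e q 1 ≤ vv (w.wd () () e)

theorem wok {a b a1 a2f a2t a3 rho : ℕ} {p q : ℝ≥0∞} (h1 : q ≤ 1) (h2 : p ≤ vv a)
    (h3 : p * q ≤ vv b) : Wok (nw a b a1 a2f a2t a3 rho) p q :=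
  ⟨h1, fun e => by cases e <;> simpa [nw], h2, fun e => by cases e <;> simpa [nw]⟩

variable (G : Grid) (w : NW Unit) (p q : ℝ≥0∞) (l : ℕ) (t : Pt → ℝ≥0∞)

open Classical in
noncomputable def st (prev : Option Pt) (u : Pt) : ℝ≥0∞ := p * if G.Ear prev u then q else 1

noncomputable def sys : Sys Unit where
  G := G
  W := w.W
  fac _ _ := 1
  fo _ v := ind (l ≤ v.1)
  om _ _ prev v u := ind (l ≤ v.1) * st G p q prev u
  term _ _ v := t v
  K := Kof w.k G
  tb _ _ v := t v
  H := 0
  be := 0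

noncomputable def pw : Option Pt → Pt → List Pt → ℝ≥0∞
  | _, _, [] => 1
  | prev, v, u :: L => st G p q prev u * pw (some v) u L

variable {G w p q l t}

theorem st_le (h : q ≤ 1) (prev : Option Pt) (u : Pt) (b : Bool) (hb : b = true → G.Ear prev u) :
    st G p q prev u ≤ p * cond b q 1 := by
  unfold st
  cases b
  · refine mul_le_mul' le_rfl ?_
    split_ifs
    · exact h
    · exact le_rfl
  · rw [if_pos (hb rfl)]; exact le_rfl

theorem steps (h : Wok w p q) : (sys G w p q l t).Steps where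
  lat _ _ prev _ _ _ b hb := mul_le_mul' le_rfl
    (((st_le h.q1 prev _ b hb).trans (h.wl b)).trans_eq (mul_one _).symm)
  up _ _ prev _ _ _ _ := mul_le_mul' le_rfl
    (((st_le h.q1 prev _ false (by simp)).trans ((mul_one _).trans_le h.wu)).trans_eq (mul_one _).symm)
  dn _ _ prev _ _ _ b _ hb := mul_le_mul' le_rfl
    (((st_le h.q1 prev _ b hb).trans (h.wd b)).trans_eq (mul_one _).symm)
  tm _ _ _ _ _ _ := le_rfl

theorem ker {wd rl N : ℕ} (h : chkK w () wd rl (unp N) = true) : (sys G w p q l t).Ker :=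
  Sys.ker_ok _ rfl (fun _ => rfl) (fun _ _ => le_rfl) (fun _ _ => ind_le_one _)
    (raw := fun _ => unp N) fun _ => h

theorem pw_le (L : List Pt) : ∀ prev v, (∀ u ∈ v :: L, l ≤ u.1) →
    pw G p q prev v L * t (L.getLastD v) ≤ (sys G w p q l t).Wl () prev v L := by
  induction L with
  | nil => intro prev v _; simp [pw, Sys.Wl, sys]
  | cons u L ih =>
    intro prev v h
    rw [pw, Sys.Wl, Fintype.sum_unique, List.getLastD_cons, mul_assoc]
    refine mul_le_mul' ?_ (ih _ _ fun x hx => h x (List.mem_cons_of_mem _ hx))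
    show _ ≤ ind _ * _
    rw [ind_of (h v (by simp)), one_mul]

open Classical in
theorem prod_pw (d : Pt) (L : List Pt) : ∀ a v : Pt, ∏ i ∈ Finset.range L.length,
    (p * if G.Adj ((a :: v :: L).getD i d) ((a :: v :: L).getD (i + 2) d) then q else 1) =
      pw G p q (some a) v L := by
  induction L with
  | nil => intro a v; simp [pw]
  | cons u L ih =>
    intro a v
    rw [List.length_cons, Finset.prod_range_succ', pw, ← ih v u, mul_comm]
    simp [st, Grid.Ear]

theorem wt_eq (P : Nm) (z b : Pt) (I : List Pt) (e : Pt) :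
    G.wt P z b I e (fun _ => True) (fun _ => True) (fun _ => False) =
      pw G P.p P.q none b (I ++ [e]) := by
  obtain ⟨u, L, h⟩ := List.exists_cons_of_ne_nil (show I ++ [e] ≠ [] by simp)
  have hl : I.length = L.length := by simpa using congrArg List.length h
  have hv : ∀ i, Grid.vx b I e i = (b :: u :: L).getD i e := fun i => by
    rw [Grid.vx, List.cons_append, h]
  rw [Grid.wt, Finset.prod_range_succ', h, pw, ← prod_pw e, hl, mul_comm]
  congr 1
  · simp [st, Grid.Ear]
  refine Finset.prod_congr rfl fun i _ => ?_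
  rw [← hv, ← hv]
  by_cases c : G.Adj (Grid.vx b I e i) (Grid.vx b I e (i + 2)) <;> simp [c, add_assoc]

theorem pw_one (L : List Pt) : ∀ prev v, pw G p 1 prev v L = p ^ L.length := by
  induction L with
  | nil => intro _ _; simp [pw]
  | cons u L ih => intro _ _; simp [pw, st, ih, pow_succ']

theorem le_ind {A : Prop} {x y : ℝ≥0∞} (h : A) (h' : x ≤ y) : x ≤ ind A * y := by
  rwa [ind_of h, one_mul]

theorem ext_congr (B : NT Unit) {f g : ℕ → ℕ} {i : ℤ} (h : f (B.cl i) = g (B.cl i)) :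
    B.ext f i = B.ext g i := by
  unfold NT.ext
  unfold NT.cl at h
  split_ifs with h1 h2
  · rw [show (max 6 (min i (6 + B.w))).toNat = 6 by omega] at h; rw [h]
  · rw [show (max 6 (min i (6 + B.w))).toNat = 6 + B.w by omega] at h; rw [h]
  · rw [show (max 6 (min i (6 + B.w))).toNat = i.toNat by omega] at h; rw [h]

/-! ### the tables along a ray -/

def tab (al : ℕ → Bool → Bool) (r : ℕ) (src : ℕ → ℕ) (N : ℕ) : NT Unit :=
  ⟨false, 10, r, r, al, fun _ _ => NN, fun _ _ => NN, fun _ _ _ => src, unp N⟩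

def chkE (w : NW Unit) (U : NT Unit) : Bool :=
  U.chkS false 9 && U.chkM w false 9 && U.chkS true 13 && U.chkM w true 13

def chkF (w : NW Unit) (U B : NT Unit) (jr : ℕ) (f : ℕ → ℕ) : Bool :=
  Nat.ble (U.usN w () false 11) (f 11 * NN ^ 2) && Nat.ble (U.usN w () true 11) (f 12 * NN ^ 2) &&
    U.chkUp B false 9 10 (fun _ => f) && U.chkUp B true jr 13 fun _ => f

theorem beta_le {n : ℕ} {o : Bool} {r : ℤ} {U B : NT Unit} {fc : Unit → ℤ → ℝ≥0∞} {jr : ℕ}
    {f : ℕ → ℕ} (hc : Cov G (n + 1) (G.fst n r (!o) - sg o * 11) o U.tb fc)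
    (hE : chkE w U = true) (hF : chkF w U B jr f = true) (hw : B.w = 10)
    (hj : jr = 13 ∨ jr = 14 ∧ Two G.A n r) (x : ℤ) :
    upS G w.W fc n x (pull G (n + 1) (G.fst n r (!o) - sg o * 11) o U.tb.T) () ≤
      B.ext f (idx (r - sg o * 11) o x) := by
  simp only [chkE, chkF, Bool.and_eq_true, Nat.ble_eq] at hE hF
  obtain ⟨⟨⟨e1, e2⟩, e3⟩, e4⟩ := hE
  obtain ⟨⟨⟨f1, f2⟩, f3⟩, f4⟩ := hF
  obtain ⟨i, rfl⟩ : ∃ i, x = pos (r - sg o * 11) o i := ⟨_, (pos_idx _ o x).symm⟩
  rw [idx_pos]
  have us : ∀ (s : Bool) (j : ℕ), 6 ≤ j → j ≤ 16 → U.usN w () s 11 ≤ f j * NN ^ 2 →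
      U.tb.US w.W () s (11 : ℕ) ≤ B.ext f j := fun s j a b c => by
    rw [B.ext_in f a (by omega)]
    exact (U.us_le w (by omega) () s).trans ((vk_mono 3 c).trans_eq (vk_pow 1 2 _))
  rcases (by omega : i ≤ 10 ∨ i = (11 : ℕ) ∨ i = (12 : ℕ) ∨ 13 ≤ i) with h | rfl | rfl | h
  · refine up_all hc w e1 e2 (by simp [Bey]) f3 ?_ (by simp only [Bey, sg]; omega) ()
    have a := G.gap2 n r
    rw [show pos (r - sg o * 11) o (10 : ℕ) = r - sg o by simp only [pos]; ring]
    cases o <;> simp [Bey, idx, sg, sd, Grid.fst] <;> omega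
  · have := upS_le_US hc w.W (pos (r - sg o * 11) o (11 : ℕ)) (!o)
    have e : idx (G.fst n r (!o) - sg o * 11) o (G.fst n (pos (r - sg o * 11) o (11 : ℕ)) (!o)) =
        (11 : ℕ) := by cases o <;> simp [idx, pos, sg]
    rw [e, sd_not] at this
    exact (this (fun i hi => U.chkS_sound e1 (by simp only [Bey, hop, sg] at hi ⊢; omega)) ()).trans
      (us false 11 (by omega) (by omega) f1)
  · have := upS_le_US hc w.W (pos (r - sg o * 11) o (12 : ℕ)) o
    have e : idx (G.fst n r (!o) - sg o * 11) o (G.fst n (pos (r - sg o * 11) o (12 : ℕ)) o) =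
        (11 : ℕ) := by
      rw [show pos (r - sg o * 11) o (12 : ℕ) = r + sg o by simp only [pos]; ring]
      cases o <;> simp [idx, sg, Grid.fst, sub_eq_add_neg]
    rw [e, show sd o o = true by cases o <;> rfl] at this
    exact (this (fun i hi => U.chkS_sound e3 (by simp only [Bey, hop, sg] at hi ⊢; omega)) ()).trans
      (us true 12 (by omega) (by omega) f2)
  · refine up_all hc w e3 e4 (by simp only [Bey, sg]; omega) f4 ?_ (by simp only [Bey, sg]; omega) ()
    have a := G.gap2 n (r + sg o)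
    have b := G.gap3 n (r + sg o)
    have c : Two G.A n r → ¬Two G.A n (r + sg o) := fun h h' => by
      cases o
      · exact G.two_succ n _ h' (by simpa [sg] using h)
      · exact G.two_succ n _ h h'
    rw [show pos (r - sg o * 11) o (13 : ℕ) = r + sg o + sg o by simp only [pos]; ring]
    rcases hj with rfl | ⟨rfl, hj⟩
    · cases o <;> simp [Bey, idx, sg, sd, Grid.fst, sub_eq_add_neg] at a ⊢ <;> omega
    · replace b := b (c hj)
      cases o <;> simp [Bey, idx, sg, sd, Grid.fst, sub_eq_add_neg] at b ⊢ <;> omega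

/-- certificate for the sum over the points of a ray -/
structure RC where
  rl : ℕ
  K : ℕ
  r : ℕ
  B : ℕ
  f : ℕ
  B0 : ℕ
  f0 : ℕ
  val : ℕ

def RC.tB (C : RC) : NT Unit :=
  tab (anch 11) C.r (fun j => cond (Nat.beq j 11) NN 0 + unp1 C.f j) C.B

def RC.t0 (C : RC) : NT Unit := tab (fun _ _ => true) C.r (unp1 C.f0) C.B0

def RC.OK (C : RC) (w : NW Unit) : Prop :=
  chkK w () 8 C.rl (unp C.K) = true ∧ C.tB.chk w = true ∧ chkE w C.tB = true ∧
    chkF w C.tB C.tB 14 (unp1 C.f) = true ∧ C.t0.chk w = true ∧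
    chkF w C.tB C.t0 13 (unp1 C.f0) = true ∧ C.t0.val () 11 ≤ C.val

theorem ray {C : RC} (ok : C.OK w) (hw : Wok w p q) (o : Bool) (r : ℕ → ℤ)
    (hr : ∀ n, l ≤ n → r (n + 1) = G.fst n (r n) (!o)) (m : ℕ) :
    (sys G w p q l fun v => ind (l < v.1 ∧ v.2 = r v.1)).U m () none (l, r l) ∅ ≤ vv C.val := by
  obtain ⟨k1, k2, k3, k4, k5, k6, k7⟩ := ok
  set S := sys G w p q l fun v => ind (l < v.1 ∧ v.2 = r v.1) with hS
  let H : ℕ → Fn Unit := fun n => if n < l then fun _ _ _ => 0 else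
    pull G n (r n - sg o * 11) o (if n = l then C.t0 else C.tB).tb.T
  have two : ∀ n, l < n → Two G.A n (r n) := fun n hn => by
    obtain ⟨n, rfl⟩ : ∃ k, n = k + 1 := ⟨n - 1, by omega⟩
    rw [hr n (by omega)]; exact G.two_fst ..
  have cB : ∀ n, l < n → Cov G n (r n - sg o * 11) o C.tB.tb fun _ _ => 1 := fun n hn =>
    ⟨anch_ok G n C.tB (j0 := 11) (by omega) (by simp [RC.tB, tab])
      (by simpa [pos] using two n hn), fun _ _ => vv_NN.ge⟩
  have be : ∀ n, l ≤ n → ∀ (B : NT Unit) jr f, chkF w C.tB B jr f = true → B.w = 10 →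
      (jr = 13 ∨ jr = 14 ∧ Two G.A n (r n)) → ∀ x,
      S.beta n (H (n + 1)) () x ≤ B.ext f (idx (r n - sg o * 11) o x) := by
    intro n hn B jr f h1 h2 h3 x
    have := cB (n + 1) (by omega)
    simp only [H, if_neg (show ¬n + 1 < l by omega), if_neg (show ¬n + 1 = l by omega)]
    rw [hr n hn] at this ⊢
    exact beta_le this k3 h1 h2 h3 x
  have hH : ∀ n, LineSup S.W (S.line n) (H n) fun q a y =>
      S.tb q a (n, y) + S.fo q (n, y) * S.beta n (H (n + 1)) q y := by
    intro n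
    rcases lt_trichotomy n l with h | rfl | h
    · simp only [H, if_pos h]
      refine (LineSup.zero _ _).src_mono fun q a x _ => le_of_eq ?_
      show ind _ + ind _ * _ = _
      rw [ind_of_not (by simp only; omega), ind_of_not (by simp only; omega), zero_mul, add_zero]
    · have e : H n = pull G n (r n - sg o * 11) o C.t0.tb.T := by simp [H]
      rw [e]
      have c0 : Cov G n (r n - sg o * 11) o C.t0.tb fun _ _ => 1 :=
        ⟨fun _ => rfl, fun _ _ => vv_NN.ge⟩
      refine (S.lineSup_pull (k := w.k) rfl c0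
        (fun _ _ => (ind_le_one _).trans vv_NN.ge) (by simp [RC.t0, tab, NT.tb])
        (C.t0.chk_sound w k5)).src_mono fun q a x _ => ?_
      show ind _ + ind _ * _ ≤ _
      rw [ind_of_not (by simp), zero_add]
      exact ind_mul_le fun _ => be n le_rfl _ _ _ k6 rfl (Or.inl rfl) x
    · have e : H n = pull G n (r n - sg o * 11) o C.tB.tb.T := by simp [H, h.ne', h.le]
      rw [e]
      refine (S.lineSup_pull (k := w.k) rfl (cB n h)
        (fun _ _ => (ind_le_one _).trans vv_NN.ge) (by simp [RC.tB, tab, NT.tb])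
        (C.tB.chk_sound w k2)).src_mono fun q a x _ => ?_
      have b := be n h.le _ _ _ k4 rfl (Or.inr ⟨rfl, two n h⟩) x
      show ind _ + ind _ * _ ≤ C.tB.ext _ (idx _ o x)
      by_cases ex : x = r n
      · have e1 : idx (r n - sg o * 11) o x = (11 : ℕ) := by cases o <;> simp [ex, idx, sg]
        rw [e1, C.tB.ext_in _ (by omega) (by simp [RC.tB, tab])] at b ⊢
        refine (add_le_add (ind_le_one _) (ind_mul_le fun _ => b)).trans (le_of_eq ?_)
        rw [← vv_NN]; exact vk_add 1 _ _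
      · rw [ind_of_not fun h => ex h.2, zero_add]
        refine ind_mul_le fun _ => b.trans (le_of_eq (ext_congr _ ?_))
        have : Nat.beq (C.tB.cl (idx (r n - sg o * 11) o x)) 11 = false := by
          rw [← Bool.not_eq_true, Nat.beq_eq]
          cases o <;> simp only [NT.cl, idx, sg, RC.tB, tab] <;> omega
        show _ = cond (Nat.beq (C.tB.cl _) 11) _ _ + _
        rw [this, cond_false, zero_add]
  have key := Sys.descend (S := S) (steps hw) (ker k1) H H l (fun n => hH (n + 1))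
    (fun n hn => (hH n).src_mono fun q a x _ => le_of_eq ?_) l le_rfl m () .C0 (r l) none ∅ trivial
  · refine key.trans ?_
    simp only [H, lt_irrefl, if_false, if_true]
    exact (val_le G l _ o C.t0 () (j := 11) (by cases o <;> simp [idx, sg]) (by omega)
      (by simp [RC.t0, tab])).trans (vv_mono k7)
  · rcases n with _ | n
    · exact add_zero _
    · simp [Sys.dn, H, show n < l by omega]

theorem sG_le {C : RC} (ok : C.OK w) {P : Nm} (hw : Wok w P.p P.q) (o : Pt) (s : Bool) :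
    G.sG P o s ≤ vv C.val := by
  let r : ℕ → ℤ := fun n => if s then G.rr o (n - o.1) else G.lr o (n - o.1)
  have hr : ∀ n, o.1 ≤ n → r (n + 1) = G.fst n (r n) (!s) := fun n hn => by
    obtain ⟨k, rfl⟩ := Nat.exists_eq_add_of_le hn
    simp only [r, show o.1 + k + 1 - o.1 = k + 1 by omega, Nat.add_sub_cancel_left]
    cases s <;> simp [Grid.rr, Grid.lr, Grid.fst]
  have h0 : (o.1, r o.1) = o := by cases s <;> simp [r, Grid.rr, Grid.lr]
  have := Sys.list_le _ (ray (G := G) ok hw s r hr)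
  rw [h0] at this
  refine le_trans (tsum_le_of_enc _ _ (fun x : ℕ × List Pt => x.2 ++ [(o.1 + (x.1 + 1),
    if s then G.rr o (x.1 + 1) else G.lr o (x.1 + 1))]) ?_ ?_) this
  · rintro ⟨i, I⟩ ⟨i', I'⟩ - - h
    obtain ⟨h1, h2⟩ := List.append_inj' h rfl
    have := congrArg (fun L : List Pt => (L.headD o).1) h2
    simp only [List.headD_cons] at this
    exact Prod.ext (by omega) h1
  · rintro ⟨i, I⟩ h
    obtain ⟨h1, h2, h3⟩ := of_ind_mul_ne h
    refine ind_mul_le fun _ => le_ind ⟨h1, h2, by simp⟩ ?_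
    refine le_trans (le_of_eq ?_) (pw_le _ none o ?_)
    · rw [wt_eq, ind_of, mul_one]
      simp [r]
    · intro u hu
      simp only [List.mem_cons, List.mem_append, List.not_mem_nil, or_false] at hu
      rcases hu with rfl | hu | rfl
      · exact le_rfl
      · exact h3 u hu
      · exact Nat.le_add_right ..

theorem sGS_le (P : Nm) (o : Pt) (s : Bool) : G.sGS P o s ≤ G.sG P o s :=
  ENNReal.tsum_le_tsum fun _ => mul_le_mul'
    (ind_mono fun h => ⟨h.1, h.2.1, fun v hv => (h.2.2 v hv).1⟩) le_rfl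

/-! ### paths to the lowest level -/

def h0 (a N : ℕ) : NT Unit :=
  ⟨true, 0, NN, NN, fun _ t => !t, fun _ _ => NN, fun _ _ => NN, fun _ _ _ _ => a, unp N⟩

def h1 (w : NW Unit) (g N : ℕ) : NT Unit :=
  ⟨false, 0, NN, NN, fun _ _ => true, fun _ _ => NN, fun _ _ => NN,
    fun q t a _ => dnT (dotN w (fun _ => g) q a) t, unp N⟩

theorem hh {x : ℝ≥0∞} {a g rl K N0 N1 : ℕ} (hw : Wok w x 1) (ha : x ≤ vv a)
    (k1 : chkK w () 8 rl (unp K) = true) (k2 : (h0 a N0).chk w = true)
    (k3 : (h1 w g N1).chk w = true) (k4 : (h0 a N0).chkSup 6 6 (fun _ => g) = true)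
    (k5 : (h1 w g N1).chkSup 6 6 (fun _ => g) = true) : HH x (vv g) := by
  intro G u
  set S := sys G w x 1 0 fun v => ind (v.1 = 0) * x with hS
  let F : ℕ → Fn Unit := fun n => pull G n 0 true (if n = 0 then h0 a N0 else h1 w g N1).tb.T
  have c0 : Cov G 0 0 true (h0 a N0).tb fun _ _ => 1 :=
    ⟨fun y => by simp [NT.tb, h0, tyb_false, Two], fun _ _ => vv_NN.ge⟩
  have c1 : ∀ n, Cov G n 0 true (h1 w g N1).tb fun _ _ => 1 := fun n =>
    ⟨fun _ => rfl, fun _ _ => vv_NN.ge⟩
  have sup : ∀ n y, F n () .C0 y ≤ vv g := fun n y => by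
    rw [← one_mul (F _ _ _ _)]
    rcases n with _ | n
    · exact sup_le c0 k4 (fun _ => le_rfl) (fun _ => le_rfl) (by simp only [NT.cl, h0]; omega)
        (by simp only [NT.cl, h0]; omega) ()
    · exact sup_le (c1 _) k5 (fun _ => le_rfl) (fun _ => le_rfl) (by simp only [NT.cl, h1]; omega)
        (by simp only [NT.cl, h1]; omega) ()
  have key := fun m => Sys.descend (S := S) (steps hw) (ker k1) (fun _ _ _ _ => 0) F u.1
    (fun n => (LineSup.zero _ _).src_mono fun q a y _ => le_of_eq ?_) (fun n _ => ?_)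
    u.1 le_rfl m () .C0 u.2 none ∅ trivial
  · refine le_trans (ENNReal.tsum_le_tsum fun L => ind_mul_le fun h =>
      le_ind ⟨h.1, h.2.1, by simp⟩ ?_) (Sys.list_le S fun m => (key m).trans (sup _ _))
    refine le_trans (le_of_eq ?_) (pw_le L none u fun _ _ => Nat.zero_le _)
    rw [pw_one, ind_of h.2.2, one_mul, pow_succ]
  · rw [S.beta_zero, mul_zero, add_zero]
    show ind _ * _ = _
    rw [ind_of_not (by simp), zero_mul]
  · rcases n with _ | n
    · refine (S.lineSup_pull (k := w.k) rfl c0 (fun _ _ => (ind_le_one _).trans vv_NN.ge)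
        (fun _ => rfl) ((h0 a N0).chk_sound w k2)).src_mono fun q b y _ => ?_
      rw [S.beta_zero, mul_zero, add_zero, Sys.dn, add_zero]
      exact (ind_mul_le fun _ => ha).trans
        ((h0 a N0).ext_eq_cl (fun _ => a) (fun _ => rfl) fun _ => rfl).ge
    · refine (S.lineSup_pull (k := w.k) rfl (c1 _) (fun _ _ => (ind_le_one _).trans vv_NN.ge)
        (by simp [NT.tb, h1]) ((h1 w g N1).chk_sound w k3)).src_mono fun q b y _ => ?_
      rw [S.beta_zero, mul_zero, add_zero]
      refine (add_le_add (le_of_eq (show ind _ * _ = 0 by rw [ind_of_not (by simp), zero_mul]))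
        (dn_le (S := S) rfl n _ true q b y (fun k => vk 2 (dotN w (fun _ => g) q (mir true b) k))
          fun z _ => ?_)).trans ?_
      · rw [← dotN_eq]
        exact Finset.sum_le_sum fun _ _ => mul_le_mul' le_rfl ((one_mul _).trans_le (sup _ _))
      · rw [zero_add]
        exact (ind_mul_le fun _ => cond_le_dnT _ _).trans
          ((h1 w g N1).ext_eq_cl (fun _ => _) (fun _ => rfl) fun _ => rfl).ge

end Ex
end Pool.Agent.P.MP_e4ac67_pr.Gr
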